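import Pool.Agent.Q164.MN.Main

set_option autoImplicit false

/-!
# Covering Petersen-minor-free graphs with small matching number by two cycles (MP_e6539c_co)

Every finite multigraph without isthmuses, without a Petersen graph minor and without a matching of
nine edges is the union of two cycles.  There is no condition on the number of vertices, the degrees
or the connectivity.

Proof.  The class is closed under deletions and contractions.  A minimal counterexample has no
circuits of length at most four, all degrees are at least three, and by the theorem on graphs with at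
most sixteen vertices of odd degree (starting files) it has at least eighteen vertices.  By the
theorem of Tutte and Berge a graph of this kind without a matching of nine edges has a set `A` of
`s` vertices whose removal leaves at least `s + n - 16` odd components.  Components with one vertex
need three neighbours in `A`, and two of them have at most one in common, components with three
vertices need at least five vertices in `A`, and if `s = 1` every component has at least nine
vertices; this gives `n ≤ 17`.
-/

namespace Pool.Agent.Results.MP_e6539c_co.MatchingNumberEight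

variable {V E : Type}

/-- The vertices `x` and `y` are joined by an edge different from `e`. -/
def AdjWithout (src dst : E → V) (e : E) (x y : V) : Prop :=
  ∃ e', e' ≠ e ∧ ((src e' = x ∧ dst e' = y) ∨ (src e' = y ∧ dst e' = x))

/-- The edge `e` is an isthmus: its ends are not joined by a walk that avoids `e`. -/
def IsIsthmus (src dst : E → V) (e : E) : Prop :=
  ¬ Relation.ReflTransGen (AdjWithout src dst e) (src e) (dst e)

/-- `C` is a cycle (a disjoint union of circuits): every vertex has even degree in `(V, C)`; a loop
counts twice. -/
def IsCycle [DecidableEq V] (src dst : E → V) (C : Finset E) : Prop :=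
  ∀ v : V, Even ((C.filter (fun e => src e = v)).card + (C.filter (fun e => dst e = v)).card)

/-- `M` is a matching: no edge of `M` is a loop, and different edges have no common end. -/
def IsMatching (src dst : E → V) (M : Finset E) : Prop :=
  (∀ e ∈ M, src e ≠ dst e) ∧ ∀ e ∈ M, ∀ f ∈ M, e ≠ f →
    src e ≠ src f ∧ src e ≠ dst f ∧ dst e ≠ src f ∧ dst e ≠ dst f

/-- The Petersen graph: the vertices are the `2`-element subsets of a `5`-element set, two of them
being adjacent if they are disjoint. -/
def PetVertex : Type := {s : Finset (Fin 5) // s.card = 2}

/-- The vertices `x` and `y` lie in `B` and are joined by an edge. -/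
def AdjIn (src dst : E → V) (B : Set V) (x y : V) : Prop :=
  x ∈ B ∧ y ∈ B ∧ ∃ e, (src e = x ∧ dst e = y) ∨ (src e = y ∧ dst e = x)

/-- The multigraph has a Petersen minor: there are nonempty disjoint vertex sets `B s`, one for
each vertex `s` of the Petersen graph, such that any two vertices of `B s` are joined by a walk in
`B s`, and such that an edge joins `B s` and `B t` if `s` and `t` are adjacent. -/
def HasPetersenMinor (src dst : E → V) : Prop :=
  ∃ B : PetVertex → Set V, (∀ s, (B s).Nonempty) ∧
    (∀ s t, s ≠ t → Disjoint (B s) (B t)) ∧
    (∀ s, ∀ x ∈ B s, ∀ y ∈ B s, Relation.ReflTransGen (AdjIn src dst (B s)) x y) ∧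
    ∀ s t : PetVertex, Disjoint s.1 t.1 →
      ∃ e, (src e ∈ B s ∧ dst e ∈ B t) ∨ (src e ∈ B t ∧ dst e ∈ B s)

open Pool.Agent.TH462.T4 in
/-- A finite multigraph without isthmuses, without a Petersen graph minor and in which every
matching has at most eight edges is the union of two cycles. -/
theorem result (V E : Type) [Fintype V] [DecidableEq V] [Fintype E] [DecidableEq E]
    (src dst : E → V) (hiso : ∀ e, ¬ IsIsthmus src dst e)
    (hP : ¬ HasPetersenMinor src dst)
    (hM : ∀ M : Finset E, IsMatching src dst M → M.card ≤ 8) :
    ∃ C₁ C₂ : Finset E, IsCycle src dst C₁ ∧ IsCycle src dst C₂ ∧ C₁ ∪ C₂ = Finset.univ := by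
  obtain ⟨f, hf, -, hf0⟩ := Pool.Agent.Q164.MN.main (s := src) (t := dst)
    (Pool.Agent.TH443.P5.no_one_cut hiso)
    (fun h => hP (Pool.Agent.TH443.P5.pet_minor h)) (fun M h => hM M h)
  refine ⟨Finset.univ.filter (fun e => (f e).1 ≠ 0), Finset.univ.filter (fun e => (f e).2 ≠ 0),
    ?_, ?_, ?_⟩
  · intro v
    refine Pool.Agent.TH443.P5.even_of_sum (fun e => (f e).1) v ?_
    have h1 := congrArg Prod.fst (hf v)
    unfold bd at h1
    rw [Prod.fst_sum] at h1
    refine Eq.trans ?_ h1
    · refine Finset.sum_congr rfl fun e _ => ?_
      rw [Prod.fst_add]
      split_ifs <;> rfl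
  · intro v
    refine Pool.Agent.TH443.P5.even_of_sum (fun e => (f e).2) v ?_
    have h1 := congrArg Prod.snd (hf v)
    unfold bd at h1
    rw [Prod.snd_sum] at h1
    refine Eq.trans ?_ h1
    · refine Finset.sum_congr rfl fun e _ => ?_
      rw [Prod.snd_add]
      split_ifs <;> rfl
  · ext e
    simp only [Finset.mem_union, Finset.mem_filter, Finset.mem_univ, true_and, iff_true]
    by_contra h
    push Not at h
    exact hf0 e (Finset.notMem_empty e) (Finset.notMem_empty e) (Prod.ext h.1 h.2)

end Pool.Agent.Results.MP_e6539c_co.MatchingNumberEight
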