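import Pool.Agent.Q116.FF.Bw
import Pool.Agent.TH362.TF.Contr
import Pool.Agent.TH362.TF.Cyc

/-!
# Two cycles cover the bridgeless graphs of minimum degree at least a eighteenth of the order

Every multigraph without isthmuses with `n ≥ 648` vertices in which each vertex has more than
`n / 18 - 1` neighbours is the union of two cycles, or a component can be contracted to the Petersen
graph.  The number 18 is best possible: for all `m ≥ 5` there is a graph with `18 m` vertices, each
of which has at least `m - 1` neighbours, for which both fail.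

Proof.  Circuits of length at most four are contracted.  In the quotient each class has more than
`d` vertices, or at least `d` classes are adjacent to it, because two classes are joined by at most
one edge; there are at most 17 classes of the first kind, and a class of the second kind would have
too many second neighbours.  So there are at most 17 classes, at most 16 of them of odd degree, and
the theorem of the starting files on graphs with at most sixteen vertices of odd degree applies.
In the examples the vertices of a Blanusa snark are replaced by complete graphs.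
-/

set_option autoImplicit false

namespace Pool.Agent.Results.MP_e6539c_co.MinimumDegree

open Pool.Agent.TH362.Multi

/-- The neighbours of the vertex `v` (different from `v`). -/
def neighbours {V E : Type} (s t : E → V) (v : V) : Set V :=
  {u | u ≠ v ∧ ∃ e, (s e = v ∧ t e = u) ∨ (s e = u ∧ t e = v)}

/-- The edge set is the union of two cycles. -/
def TwoCycles {V E : Type} (s t : E → V) : Prop :=
  ∃ C₁ C₂ : Set E, IsCycle s t C₁ ∧ IsCycle s t C₂ ∧ C₁ ∪ C₂ = Set.univ

theorem neighbours_eq {V E : Type} [Fintype V] [DecidableEq V] [Fintype E] [DecidableEq E]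
    (s t : E → V) (v : V) :
    (neighbours s t v).ncard = (Q116.FF.nbr s t Finset.univ v).card := by
  have h1 : neighbours s t v = ((Q116.FF.nbr s t Finset.univ v : Finset V) : Set V) := by
    ext u
    rw [Finset.mem_coe, Q116.FF.mem_nbr]
    constructor
    · rintro ⟨h1, e, h2⟩
      exact ⟨h1, e, Finset.mem_univ _, h2⟩
    · rintro ⟨h1, e, _, h2⟩
      exact ⟨h1, e, h2⟩
  rw [h1, Set.ncard_coe_finset]

theorem even_iff {V E : Type} [Fintype V] [DecidableEq V] [Fintype E] [DecidableEq E]
    (s t : E → V) (C : Set E) (v : V) [DecidablePred (· ∈ C)] :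
    (degree s t C v : ZMod 2) = ∑ e, ((if s e = v then (if e ∈ C then (1 : ZMod 2) else 0) else 0) +
      (if t e = v then (if e ∈ C then (1 : ZMod 2) else 0) else 0)) := by
  unfold degree
  have h : ∀ f : E → V, ({e | e ∈ C ∧ f e = v}.ncard : ZMod 2) =
      ∑ e, (if f e = v then (if e ∈ C then (1 : ZMod 2) else 0) else 0) := by
    intro f
    have h1 : {e | e ∈ C ∧ f e = v} =
        ((Finset.univ.filter (fun e => e ∈ C ∧ f e = v) : Finset E) : Set E) := by
      ext e; simp
    rw [h1, Set.ncard_coe_finset, Finset.card_filter]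
    push_cast
    refine Finset.sum_congr rfl fun e _ => ?_
    by_cases h2 : f e = v <;> by_cases h3 : e ∈ C <;> simp [h2, h3]
  rw [Nat.cast_add, h s, h t, Finset.sum_add_distrib]

theorem nz_of {V E : Type} [Fintype V] [DecidableEq V] [Fintype E] [DecidableEq E]
    {s t : E → V} (h : TwoCycles s t) : TH362.TF.NZ s t Finset.univ := by
  classical
  obtain ⟨C₁, C₂, h1, h2, h3⟩ := h
  refine ⟨fun e => ((if e ∈ C₁ then 1 else 0), (if e ∈ C₂ then 1 else 0)), fun e _ => ?_,
    fun v => ?_⟩
  · have h4 : e ∈ C₁ ∪ C₂ := by rw [h3]; trivial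
    rcases h4 with h4 | h4
    · intro h5
      have := congrArg Prod.fst h5
      simp [h4] at this
    · intro h5
      have := congrArg Prod.snd h5
      simp [h4] at this
  · have k1 := (ZMod.natCast_eq_zero_iff_even).2 (h1 v)
    have k2 := (ZMod.natCast_eq_zero_iff_even).2 (h2 v)
    rw [even_iff] at k1 k2
    show ∑ e, _ = _
    refine Prod.ext ?_ ?_
    · rw [Prod.fst_sum]
      refine Eq.trans (Finset.sum_congr rfl fun e _ => ?_) k1
      by_cases ha : s e = v <;> by_cases hb : t e = v <;> simp [ha, hb]
    · rw [Prod.snd_sum]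
      refine Eq.trans (Finset.sum_congr rfl fun e _ => ?_) k2
      by_cases ha : s e = v <;> by_cases hb : t e = v <;> simp [ha, hb]

/-- (1) Let `s t : E → V` be a finite multigraph with `n ≥ 648` vertices and without isthmuses, in
which each vertex has at least `d` neighbours, where `18 (d + 1) > n`.  Then the edge set is the
union of two cycles, or some component can be contracted to the Petersen graph.
(2) For all `m ≥ 5` there is a finite graph without isthmuses, loops and parallel edges, with
`18 m` vertices, each of which has at least `m - 1` neighbours, whose edge set is not the union of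
two cycles and which cannot be contracted to the Petersen graph. -/
theorem result :
    (∀ (V E : Type) [Finite V] [Finite E] (s t : E → V) (d : ℕ), (∀ e, ¬ Isthmus s t e) →
      648 ≤ Nat.card V → Nat.card V < 18 * (d + 1) → (∀ v, d ≤ (neighbours s t v).ncard) →
      TwoCycles s t ∨ ContractsToPetersen s t) ∧
    ∀ m : ℕ, 5 ≤ m → ∃ (V E : Type) (_ : Finite V) (_ : Finite E) (s t : E → V),
      Nat.card V = 18 * m ∧ (∀ v, m - 1 ≤ (neighbours s t v).ncard) ∧
      (∀ e, s e ≠ t e) ∧
      (∀ e e', (s e = s e' ∧ t e = t e') ∨ (s e = t e' ∧ t e = s e') → e = e') ∧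
      (∀ e, ¬ Isthmus s t e) ∧ ¬ TwoCycles s t ∧ ¬ ContractsToPetersen s t := by
  classical
  constructor
  · intro V E _ _ s t d hb hn hdn hd
    have := Fintype.ofFinite V
    have := Fintype.ofFinite E
    have h1 := TH362.TF.n1_of s t hb
    rw [Nat.card_eq_fintype_card] at hn hdn
    rcases Q116.FF.of_degree h1 (fun v => by rw [← neighbours_eq]; exact hd v) hn hdn with h | h
    · exact Or.inl (TH362.TF.two_cycles s t h)
    · exact Or.inr (TH362.TF.contracts s t h1 h)
  · intro m hm
    haveI : NeZero m := ⟨by omega⟩
    refine ⟨Fin 18 × Fin m, Q116.FF.BE m, inferInstance, inferInstance, Q116.FF.bs, Q116.FF.bt,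
      ?_, fun v => ?_, ?_, ?_, Q116.FF.not_isthmus (Q116.FF.blow_n1 (Or.inr hm)),
      fun h => Q116.FF.blow_nz (nz_of h), Q116.FF.blow_ncp (Or.inr hm)⟩
    · rw [Nat.card_eq_fintype_card, Fintype.card_prod, Fintype.card_fin, Fintype.card_fin]
    · rw [neighbours_eq]
      exact Q116.FF.blow_nbr v
    · rintro (e | ⟨u, ⟨p, hp⟩⟩) h
      · have h1 : Q116.FF.es e = Q116.FF.et e := congrArg Prod.fst h
        exact (Q116.FF.inc_facts _ e).1 ⟨rfl, h1.symm⟩
      · have h1 : p.1 = p.2 := congrArg Prod.snd h
        exact absurd hp (by rw [h1]; exact lt_irrefl _)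
    · have key : ∀ e e' : Fin 27, (Q116.FF.es e = Q116.FF.es e' ∧ Q116.FF.et e = Q116.FF.et e') ∨
          (Q116.FF.es e = Q116.FF.et e' ∧ Q116.FF.et e = Q116.FF.es e') → e = e' := by decide
      have hne : ∀ e : Fin 27, Q116.FF.es e ≠ Q116.FF.et e := fun e h1 =>
        (Q116.FF.inc_facts _ e).1 ⟨rfl, h1.symm⟩
      rintro (e | ⟨u, ⟨⟨p, q⟩, hp⟩⟩) (e' | ⟨u', ⟨⟨p', q'⟩, hp'⟩⟩) h <;>
        simp only [Q116.FF.bs, Q116.FF.bt, Prod.mk.injEq] at h
      · rw [key e e' (by tauto)]
      · exfalso
        rcases h with ⟨⟨a1, a2⟩, a3, a4⟩ | ⟨⟨a1, a2⟩, a3, a4⟩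
        · exact hne e (a1.trans a3.symm)
        · exact hne e (a1.trans a3.symm)
      · exfalso
        rcases h with ⟨⟨a1, a2⟩, a3, a4⟩ | ⟨⟨a1, a2⟩, a3, a4⟩
        · exact hne e' (a1.symm.trans a3)
        · exact hne e' (a3.symm.trans a1)
      · rcases h with ⟨⟨a1, a2⟩, a3, a4⟩ | ⟨⟨a1, a2⟩, a3, a4⟩
        · subst a1; subst a2; subst a4; rfl
        · exfalso
          subst a2; subst a4
          exact absurd (show p < q from hp) (not_lt.2 (le_of_lt (show q < p from hp')))

end Pool.Agent.Results.MP_e6539c_co.MinimumDegree
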