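import Pool.Agent.Q114.TC.Dd
import Pool.Agent.Q114.TC.Clique
import Pool.Agent.TH362.TF.Contr
import Pool.Agent.TH362.TF.Cyc

/-!
# Two cycles cover the bridgeless graphs in which all but 26 edges lie in short circuits

A multigraph without isthmuses in which at most 26 edges lie in no circuit of length at most four,
or in which the edges in circuits of length at most four form a spanning subgraph with at most 17
components, is the union of two cycles, or a component can be contracted to the Petersen graph; 26
and 17 are best possible.  The same conclusion holds for the simple graphs with `n ≥ 24` vertices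
and at least `C(n-17, 2) + 37` edges, and it fails for some simple graphs with `C(n-17, 2) + 27`
edges.

Proof.  Circuits of length at most four are contracted.  The edges in short circuits become loops.
The quotient, which has no circuits of length two, three and four, has at most 26 edges that are
not loops, or at most 17 vertices, so at most 16 vertices have odd degree, and the theorem of the
starting files on graphs with at most sixteen vertices of odd degree applies.  In a quotient with `k ≥ 18` vertices there are at
most `k √(k-1) / 2` edges, and at most 36 if `k = 18` and all degrees are odd; the other edges lie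
inside the classes.  In the examples one vertex of a Blanusa snark is replaced by a complete graph.
-/

set_option autoImplicit false

namespace Pool.Agent.Results.MP_e6539c_co.ShortCircuits

open Pool.Agent.TH362.Multi

/-- The edge set is the union of two cycles. -/
def TwoCycles {V E : Type} (s t : E → V) : Prop :=
  ∃ C₁ C₂ : Set E, IsCycle s t C₁ ∧ IsCycle s t C₂ ∧ C₁ ∪ C₂ = Set.univ

/-- The graph is simple: no loops, no parallel edges. -/
def Simple {V E : Type} (s t : E → V) : Prop :=
  (∀ e, s e ≠ t e) ∧ ∀ e e', (s e = s e' ∧ t e = t e') ∨ (s e = t e' ∧ t e = s e') → e = e'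

theorem even_iff {V E : Type} [Fintype V] [DecidableEq V] [Fintype E] [DecidableEq E]
    (s t : E → V) (C : Set E) (v : V) [DecidablePred (· ∈ C)] :
    (degree s t C v : ZMod 2) = ∑ e, ((if s e = v then (if e ∈ C then (1 : ZMod 2) else 0) else 0) +
      (if t e = v then (if e ∈ C then (1 : ZMod 2) else 0) else 0)) := by
  unfold degree
  have h : ∀ f : E → V, ({e | e ∈ C ∧ f e = v}.ncard : ZMod 2) =
      ∑ e, (if f e = v then (if e ∈ C then (1 : ZMod 2) else 0) else 0) := by
    intro f
    have h1 : {e | e ∈ C ∧ f e = v} =
        ((Finset.univ.filter (fun e => e ∈ C ∧ f e = v) : Finset E) : Set E) := by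
      ext e; simp
    rw [h1, Set.ncard_coe_finset, Finset.card_filter]
    push_cast
    refine Finset.sum_congr rfl fun e _ => ?_
    by_cases h2 : f e = v <;> by_cases h3 : e ∈ C <;> simp [h2, h3]
  rw [Nat.cast_add, h s, h t, Finset.sum_add_distrib]

theorem nz_of {V E : Type} [Fintype V] [DecidableEq V] [Fintype E] [DecidableEq E]
    {s t : E → V} (h : TwoCycles s t) : TH362.TF.NZ s t Finset.univ := by
  classical
  obtain ⟨C₁, C₂, h1, h2, h3⟩ := h
  refine ⟨fun e => ((if e ∈ C₁ then 1 else 0), (if e ∈ C₂ then 1 else 0)), fun e _ => ?_,
    fun v => ?_⟩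
  · have h4 : e ∈ C₁ ∪ C₂ := by rw [h3]; trivial
    rcases h4 with h4 | h4
    · intro h5
      have := congrArg Prod.fst h5
      simp [h4] at this
    · intro h5
      have := congrArg Prod.snd h5
      simp [h4] at this
  · have k1 := (ZMod.natCast_eq_zero_iff_even).2 (h1 v)
    have k2 := (ZMod.natCast_eq_zero_iff_even).2 (h2 v)
    rw [even_iff] at k1 k2
    show ∑ e, _ = _
    refine Prod.ext ?_ ?_
    · rw [Prod.fst_sum]
      refine Eq.trans (Finset.sum_congr rfl fun e _ => ?_) k1
      by_cases ha : s e = v <;> by_cases hb : t e = v <;> simp [ha, hb]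
    · rw [Prod.snd_sum]
      refine Eq.trans (Finset.sum_congr rfl fun e _ => ?_) k2
      by_cases ha : s e = v <;> by_cases hb : t e = v <;> simp [ha, hb]

/-- (1) Let `s t : E → V` be a finite multigraph without isthmuses in which at most 26 edges lie in
no circuit of length at most four, or in which there are at most 17 vertices such that each vertex
is joined to one of them by a path all of whose edges lie in circuits of length at most four.  Then
the edge set is the union of two cycles, or some component can be contracted to the Petersen graph.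
(2) The same conclusion holds for every simple graph without isthmuses with `n ≥ 24` vertices and
at least `C(n-17, 2) + 37` edges.
(3) For `m = 1` and for all `m ≥ 5` there is a simple graph without isthmuses, with `n = m + 17`
vertices and `C(n-17, 2) + 27` edges, in which exactly 27 edges lie in no circuit of length at most
four, and in which there are 18 vertices such that each vertex is joined to one of them by a path
all of whose edges lie in circuits of length at most four, whose edge set is not the union of two
cycles and no component of which can be contracted to the Petersen graph. -/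
theorem result :
    (∀ (V E : Type) [Finite V] [Finite E] (s t : E → V), (∀ e, ¬ Isthmus s t e) →
      ({e | ¬ Q114.TC.InShortCircuit s t e}.ncard ≤ 26 ∨
        ∃ R : Finset V, R.card ≤ 17 ∧ ∀ v, ∃ r ∈ R, Q114.TC.ShortLinked s t r v) →
      TwoCycles s t ∨ ContractsToPetersen s t) ∧
    (∀ (V E : Type) [Finite V] [Finite E] (s t : E → V), (∀ e, ¬ Isthmus s t e) → Simple s t →
      24 ≤ Nat.card V → (Nat.card V - 17).choose 2 + 37 ≤ Nat.card E →
      TwoCycles s t ∨ ContractsToPetersen s t) ∧
    ∀ m : ℕ, m = 1 ∨ 5 ≤ m → ∃ (V E : Type) (_ : Finite V) (_ : Finite E) (s t : E → V),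
      Nat.card V = m + 17 ∧ Nat.card E = m.choose 2 + 27 ∧ Simple s t ∧
      (∀ e, ¬ Isthmus s t e) ∧ {e | ¬ Q114.TC.InShortCircuit s t e}.ncard = 27 ∧
      (∃ R : Finset V, R.card = 18 ∧ ∀ v, ∃ r ∈ R, Q114.TC.ShortLinked s t r v) ∧
      ¬ TwoCycles s t ∧ ¬ ContractsToPetersen s t := by
  classical
  have main1 : ∀ (V E : Type) [Finite V] [Finite E] (s t : E → V), (∀ e, ¬ Isthmus s t e) →
      ({e | ¬ Q114.TC.InShortCircuit s t e}.ncard ≤ 26 ∨
        ∃ R : Finset V, R.card ≤ 17 ∧ ∀ v, ∃ r ∈ R, Q114.TC.ShortLinked s t r v) →
      TwoCycles s t ∨ ContractsToPetersen s t := by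
    intro V E _ _ s t hb h26
    have := Fintype.ofFinite V
    have := Fintype.ofFinite E
    have h1 := TH362.TF.n1_of s t hb
    have hdd : Q116.FF.DD s t (Finset.univ : Finset E) := by
      rcases h26 with h26 | ⟨R, hR, h⟩
      · have hT : (Finset.univ.filter (fun e => ¬ Q114.TC.InShortCircuit s t e)).card ≤ 26 := by
          rw [← Set.ncard_coe_finset]
          refine le_trans (le_of_eq ?_) h26
          congr 1
          ext e; simp
        exact Q114.TC.dd_of_short (fun e => Finset.mem_univ e) h1 _ hT (fun e he => by
          by_contra hc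
          exact he (Finset.mem_filter.2 ⟨Finset.mem_univ _, hc⟩))
      · exact Q114.TC.dd_of_parts (fun e => Finset.mem_univ e) h1 R hR h
    rcases hdd.or with h | h
    · exact Or.inl (TH362.TF.two_cycles s t h)
    · exact Or.inr (TH362.TF.contracts s t h1 h)
  refine ⟨main1, ?_, ?_⟩
  · intro V E _ _ s t hb hs hn hE
    have := Fintype.ofFinite V
    have := Fintype.ofFinite E
    have h1 := TH362.TF.n1_of s t hb
    rw [Nat.card_eq_fintype_card] at hn hE
    rw [Nat.card_eq_fintype_card] at hE
    rcases Q114.TC.of_size h1 hs.1 hs.2 hn (by rw [Finset.card_univ]; exact hE) with h | h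
    · exact Or.inl (TH362.TF.two_cycles s t h)
    · exact Or.inr (TH362.TF.contracts s t h1 h)
  · intro m hm
    haveI : NeZero m := ⟨by omega⟩
    have hiso := Q116.FF.not_isthmus (Q114.TC.cn1 (m := m) hm)
    have hn2 : ¬ TwoCycles (Q114.TC.cs (m := m)) Q114.TC.ct := fun h => Q114.TC.cnz (nz_of h)
    have hnp := Q114.TC.cncp (m := m) hm
    refine ⟨Q114.TC.CV m, Q114.TC.CE m, inferInstance, inferInstance, Q114.TC.cs, Q114.TC.ct,
      ?_, ?_, ⟨Q114.TC.cloop, Q114.TC.cpar⟩, hiso, ?_, ?_, hn2, hnp⟩
    · rw [Nat.card_eq_fintype_card, Q114.TC.ccardV]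
    · rw [Nat.card_eq_fintype_card, Q114.TC.ccardE]
    · apply le_antisymm
      · have hsub : {e | ¬ Q114.TC.InShortCircuit (Q114.TC.cs (m := m)) Q114.TC.ct e} ⊆
            Set.range (Sum.inl : Fin 27 → Q114.TC.CE m) := by
          rintro (e | q) he
          · exact ⟨e, rfl⟩
          · exfalso
            rcases hm with hm | hm
            · subst hm
              exact absurd q.2 (by rw [Subsingleton.elim q.1.1 q.1.2]; exact lt_irrefl _)
            · exact he (Q114.TC.cshort (by omega) q)
        refine le_trans (Set.ncard_le_ncard hsub (Set.toFinite _)) ?_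
        rw [← Set.image_univ]
        refine le_trans (Set.ncard_image_le Set.finite_univ) ?_
        rw [Set.ncard_univ, Nat.card_eq_fintype_card, Fintype.card_fin]
      · by_contra hc
        push Not at hc
        rcases main1 _ _ _ _ hiso (Or.inl (by omega)) with h | h
        · exact hn2 h
        · exact hnp h
    · refine ⟨Finset.univ.image Q114.TC.pt, ?_, ?_⟩
      · rw [Finset.card_image_of_injective _ (fun u u' h => by
          rw [← Q114.TC.pr_pt (m := m) u, ← Q114.TC.pr_pt (m := m) u', h])]
        rfl
      · rintro (⟨u, hu⟩ | j)
        · refine ⟨Q114.TC.pt u, Finset.mem_image_of_mem _ (Finset.mem_univ _), ?_⟩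
          have h1 : (Q114.TC.pt u : Q114.TC.CV m) = Sum.inl ⟨u, hu⟩ := by
            unfold Q114.TC.pt
            rw [dif_neg hu]
          rw [h1]
          exact Relation.ReflTransGen.refl
        · refine ⟨Q114.TC.pt 0, Finset.mem_image_of_mem _ (Finset.mem_univ _), ?_⟩
          have h1 : (Q114.TC.pt 0 : Q114.TC.CV m) = Sum.inr 0 := by
            unfold Q114.TC.pt
            rw [dif_pos rfl]
          rw [h1]
          by_cases hj : (0 : Fin m) = j
          · rw [hj]
            exact Relation.ReflTransGen.refl
          · have hm3 : 3 ≤ m := by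
              rcases hm with hm | hm
              · subst hm
                exact absurd (Subsingleton.elim _ _) hj
              · omega
            exact Relation.ReflTransGen.single
              ⟨Q114.TC.mk 0 j hj, Q114.TC.cshort hm3 _, Q114.TC.mk_ends 0 j hj⟩

end Pool.Agent.Results.MP_e6539c_co.ShortCircuits
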