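import Pool.Agent.Q163.FL.Path

set_option autoImplicit false

/-!
# Petersen-minor-free graphs and tree decompositions into sets of small independence number

A finite graph, loops and parallel edges allowed, has vertex set `V` and edge set `E`; the ends of
the edge `e` are `src e` and `dst e`.  The bags of the decompositions may be arbitrarily large.

Proof.  In a quotient of the graph in which all circuits of length at most four have been contracted
(this does not change the existence of a nowhere-zero 4-flow, helper116) a bag with independence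
number two has at most five vertices, and a clique which does not have exactly two vertices becomes
one vertex.  So the quotient has treewidth at most four or pathwidth at most five; for these the
theorems of helper499 and helper395 apply.
-/

namespace Pool.Agent.Results.MP_e6539c_co.TreeIndependenceTwo

open Finset

/-- the simple graph in which two distinct vertices are adjacent if an edge in `F` joins them -/
def under {V E : Type} (src dst : E → V) (F : Set E) : SimpleGraph V where
  Adj x y := x ≠ y ∧ ∃ e ∈ F, (src e = x ∧ dst e = y) ∨ (src e = y ∧ dst e = x)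
  symm := ⟨fun _ _ h => ⟨h.1.symm, h.2.imp fun _ he => ⟨he.1, he.2.symm⟩⟩⟩
  loopless := ⟨fun _ h => h.1 rfl⟩

/-- the edge `e` is an isthmus: its ends are not connected by the other edges -/
def IsIsthmus {V E : Type} (src dst : E → V) (e : E) : Prop :=
  ¬ (under src dst {e' | e' ≠ e}).Reachable (src e) (dst e)

/-- the Petersen graph is a minor: there are disjoint connected sets of vertices, one for each
two-element subset of `{0, 1, 2, 3, 4}`, and the sets for disjoint subsets are adjacent -/
def HasPetersenMinor {V E : Type} (src dst : E → V) : Prop :=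
  ∃ B : {s : Finset (Fin 5) // s.card = 2} → Set V,
    (∀ i, ((under src dst Set.univ).induce (B i)).Connected) ∧
    (∀ i j, i ≠ j → Disjoint (B i) (B j)) ∧
    (∀ i j : {s : Finset (Fin 5) // s.card = 2}, Disjoint i.1 j.1 →
      ∃ x ∈ B i, ∃ y ∈ B j, (under src dst Set.univ).Adj x y)

/-- the set of edges `C` is a cycle: all degrees are even, where a loop counts twice -/
def IsCycle {V E : Type} [DecidableEq V] (src dst : E → V) (C : Finset E) : Prop :=
  ∀ v, Even (∑ e ∈ C, ((if src e = v then 1 else 0) + (if dst e = v then 1 else 0)))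

section

variable {V E : Type} (src dst : E → V)

/-- The different vertices `x` and `y` are joined by an edge. -/
def Adjacent (x y : V) : Prop :=
  x ≠ y ∧ ∃ e, (src e = x ∧ dst e = y) ∨ (src e = y ∧ dst e = x)

/-- The vertices in `K` are pairwise adjacent. -/
def Clique (K : Finset V) : Prop := ∀ x ∈ K, ∀ y ∈ K, x ≠ y → Adjacent src dst x y

/-- The independence number is at most two: among any three vertices in `X` two are adjacent. -/
def IndependenceTwo (X : Finset V) : Prop :=
  ∀ x ∈ X, ∀ y ∈ X, ∀ z ∈ X, x ≠ y → y ≠ z → x ≠ z →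
    Adjacent src dst x y ∨ Adjacent src dst y z ∨ Adjacent src dst x z

/-- Some `m` cliques cover `X`, and `m` plus the number of those cliques which have exactly two
vertices is at most `w`. -/
def CliqueCover (w : ℕ) (X : Finset V) : Prop :=
  ∃ (m : ℕ) (K : Fin m → Finset V), (∀ i, Clique src dst (K i)) ∧ (∀ x ∈ X, ∃ i, x ∈ K i) ∧
    m + (univ.filter (fun i => (K i).card = 2)).card ≤ w

/-- A tree decomposition of the graph, with bags `bag i` for the nodes `i` of the tree `T`. -/
def IsTreeDecomposition {ι : Type} (T : SimpleGraph ι) (bag : ι → Finset V) : Prop :=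
  T.IsTree ∧ (∀ v, ∃ i, v ∈ bag i) ∧ (∀ e, ∃ i, src e ∈ bag i ∧ dst e ∈ bag i) ∧
    ∀ (i j : ι) (p : T.Walk i j), p.IsPath → ∀ k ∈ p.support, ∀ v, v ∈ bag i → v ∈ bag j →
      v ∈ bag k

/-- Some tree decomposition has only bags which have independence number at most two or a clique
cover of weight at most five. -/
def TreeClass : Prop :=
  ∃ (ι : Type) (_ : Fintype ι) (T : SimpleGraph ι) (bag : ι → Finset V),
    IsTreeDecomposition src dst T bag ∧
      ∀ i, IndependenceTwo src dst (bag i) ∨ CliqueCover src dst 5 (bag i)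

/-- `X 0, X 1, ...` is a path decomposition: every edge has both ends in one of the sets, and every
vertex lies in an interval of the sets. -/
def IsPathDecomposition [DecidableEq V] (X : ℕ → Finset V) : Prop :=
  (∀ e, ∃ i, src e ∈ X i ∧ dst e ∈ X i) ∧ ∀ i j k, i ≤ j → j ≤ k → X i ∩ X k ⊆ X j

/-- Some path decomposition has only bags `X i` which have a clique cover of weight at most six or
become sets of independence number at most two when a clique is removed which does not have exactly
two vertices. -/
def PathClass [DecidableEq V] : Prop :=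
  ∃ X : ℕ → Finset V, IsPathDecomposition src dst X ∧
    ∀ i, CliqueCover src dst 6 (X i) ∨
      ∃ K : Finset V, Clique src dst K ∧ K.card ≠ 2 ∧ IndependenceTwo src dst (X i \ K)

end

theorem cov_of {V E : Type} [Fintype V] [DecidableEq V] [Fintype E] [DecidableEq E]
    {src dst : E → V} {w : ℕ} {X : Finset V} (h : CliqueCover src dst w X) :
    Q163.FL.Cov src dst w X := by
  obtain ⟨m, K, h1, h2, h3⟩ := h
  refine ⟨m, K, fun i x hx y hy hxy => ?_, h2, ?_⟩
  · obtain ⟨_, e, he⟩ := h1 i x hx y hy hxy
    exact ⟨e, mem_univ _, he⟩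
  · have h4 : ∑ i, (if (K i).card = 2 then 2 else 1) =
        ∑ i : Fin m, (1 + if (K i).card = 2 then 1 else 0) :=
      sum_congr rfl fun i _ => by split_ifs <;> rfl
    rw [h4, sum_add_distrib, sum_boole, sum_const, card_univ, Fintype.card_fin]
    simpa using h3

theorem ind_of {V E : Type} [Fintype V] [DecidableEq V] [Fintype E] [DecidableEq E]
    {src dst : E → V} {X : Finset V} (h : IndependenceTwo src dst X) :
    Q163.FL.Ind2 src dst X := by
  intro I hI hind
  by_contra hcon
  push Not at hcon
  obtain ⟨a, ha, b, hb, c, hc, hab, hac, hbc⟩ := two_lt_card.1 hcon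
  rcases h a (hI ha) b (hI hb) c (hI hc) hab hbc hac with h1 | h1 | h1
  · obtain ⟨h2, e, he⟩ := h1
    exact hind a ha b hb h2 ⟨e, mem_univ _, he⟩
  · obtain ⟨h2, e, he⟩ := h1
    exact hind b hb c hc h2 ⟨e, mem_univ _, he⟩
  · obtain ⟨h2, e, he⟩ := h1
    exact hind a ha c hc h2 ⟨e, mem_univ _, he⟩

theorem clq_of {V E : Type} [Fintype V] [DecidableEq V] [Fintype E] [DecidableEq E]
    {src dst : E → V} {K : Finset V} (h : Clique src dst K) : Q163.FL.Clq src dst K := by
  intro x hx y hy hxy
  obtain ⟨_, e, he⟩ := h x hx y hy hxy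
  exact ⟨e, mem_univ _, he⟩

theorem flow {V E : Type} [Fintype V] [DecidableEq V] [Fintype E] [DecidableEq E]
    {src dst : E → V} (h : TreeClass src dst ∨ PathClass src dst) (hPM : ¬ TH499.TF.PM src dst)
    (hb : ∀ Y, (TH499.TF.dlt src dst Y).card ≠ 1) : TH499.TF.NZ src dst := by
  classical
  rcases h with ⟨ι, _, T, bag, ⟨t1, _, t2, t3⟩, t4⟩ | ⟨X, ⟨h1, h2⟩, h3⟩
  · refine Q163.FL.flow_tree src dst (fun X => IndependenceTwo src dst X ∨ CliqueCover src dst 5 X)
      ?_ (Q165.TI.TDP.of_tree t1 t3 t2 t4) hPM hb
    rintro f hf Y (hY | hY)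
    · exact Q163.FL.ind_image hf (ind_of hY)
    · exact Q163.FL.cov_image hf (cov_of hY)
  · refine Q163.FL.flow_path src dst (fun Y => CliqueCover src dst 6 Y ∨
      ∃ K : Finset V, Clique src dst K ∧ K.card ≠ 2 ∧ IndependenceTwo src dst (Y \ K))
      ?_ ⟨X, h1, h2, h3⟩ hPM hb
    rintro f hf Y (hY | ⟨K, hK, hK2, hY⟩)
    · exact Q163.FL.cov_image hf (cov_of hY)
    · exact Q163.FL.ind_clq_image hf (clq_of hK) hK2 (ind_of hY)

/-- **Theorem.** A graph in one of the two classes without an isthmus and without a Petersen minor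
is the union of two cycles. -/
theorem result (V E : Type) [Fintype V] [DecidableEq V] [Fintype E] [DecidableEq E]
    (src dst : E → V) (hI : ∀ e, ¬ IsIsthmus src dst e) (hP : ¬ HasPetersenMinor src dst)
    (hT : TreeClass src dst ∨ PathClass src dst) :
    ∃ C₁ C₂ : Finset E, IsCycle src dst C₁ ∧ IsCycle src dst C₂ ∧ C₁ ∪ C₂ = univ := by
  classical
  -- no cut with one edge
  have hcut : ∀ Y, (TH499.TF.dlt src dst Y).card ≠ 1 := by
    intro Y hY
    obtain ⟨e, he⟩ := card_eq_one.mp hY
    apply hI e
    intro hr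
    have hstay : ∀ x y, (under src dst {e' | e' ≠ e}).Reachable x y → (x ∈ Y ↔ y ∈ Y) := by
      rintro x y ⟨p⟩
      induction p with
      | nil => exact Iff.rfl
      | cons hadj _ ih =>
        refine Iff.trans ?_ ih
        obtain ⟨_, e', he', h1⟩ := hadj
        have hn : e' ∉ TH499.TF.dlt src dst Y := by
          rw [he, mem_singleton]; exact he'
        rw [TH499.TF.mem_dlt, not_not] at hn
        rcases h1 with ⟨h2, h3⟩ | ⟨h2, h3⟩
        · rw [h2, h3] at hn; exact hn
        · rw [h2, h3] at hn; exact hn.symm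
    have hm : e ∈ TH499.TF.dlt src dst Y := by rw [he]; exact mem_singleton_self _
    rw [TH499.TF.mem_dlt] at hm
    exact hm (hstay _ _ hr)
  -- no Petersen minor in terms of cuts
  have hPM : ¬ TH499.TF.PM src dst := by
    rintro ⟨S, h1, h2, h3⟩
    apply hP
    have hadj : ∀ {e x y}, x ≠ y → TH499.TF.Joins src dst e x y →
        (under src dst Set.univ).Adj x y := fun h hj => ⟨h, _, Set.mem_univ _, hj⟩
    have hne : ∀ i, (S i).Nonempty := by
      intro i
      obtain ⟨j, hj⟩ : ∃ j : {s : Finset (Fin 5) // s.card = 2}, Disjoint i.1 j.1 := by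
        revert i; decide
      obtain ⟨e, x, y, hx, _⟩ := h3 i j hj
      exact ⟨x, hx⟩
    refine ⟨fun i => (S i : Set V), ?_, ?_, ?_⟩
    · intro i
      obtain ⟨x0, hx0⟩ := hne i
      rw [SimpleGraph.connected_iff_exists_forall_reachable]
      refine ⟨⟨x0, hx0⟩, ?_⟩
      by_contra hcon
      push Not at hcon
      obtain ⟨⟨y0, hy0⟩, hy1⟩ := hcon
      obtain ⟨e, a, b, ha, hb, hbA, hj⟩ := h1 i
        ((S i).filter (fun x => ∃ h : x ∈ (S i : Set V),
          ((under src dst Set.univ).induce (S i : Set V)).Reachable ⟨x0, hx0⟩ ⟨x, h⟩))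
        (filter_subset _ _) ⟨x0, mem_filter.mpr ⟨hx0, hx0, SimpleGraph.Reachable.refl _⟩⟩
        (fun h => by
          have h4 : y0 ∈ (S i).filter (fun x => ∃ h : x ∈ (S i : Set V),
              ((under src dst Set.univ).induce (S i : Set V)).Reachable ⟨x0, hx0⟩ ⟨x, h⟩) := by
            rw [h]; exact hy0
          obtain ⟨_, _, h5⟩ := mem_filter.mp h4
          exact hy1 h5)
      apply hbA
      rw [mem_filter] at ha ⊢
      obtain ⟨ha1, ha2, ha3⟩ := ha
      refine ⟨hb, hb, ha3.trans ?_⟩
      apply SimpleGraph.Adj.reachable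
      have hab : a ≠ b := fun h => hbA (mem_filter.mpr ⟨hb, h ▸ ⟨ha2, ha3⟩⟩)
      exact hadj hab hj
    · intro i j hij
      exact disjoint_coe.mpr (h2 i j hij)
    · intro i j hij
      obtain ⟨e, x, y, hx, hy, hj⟩ := h3 i j hij
      refine ⟨x, hx, y, hy, hadj ?_ hj⟩
      rintro rfl
      exact disjoint_left.mp (h2 i j (TH499.TF.pr_ne i j hij)) hx hy
  obtain ⟨f, hf, hd⟩ := flow hT hPM hcut
  have h01 : ∀ a : ZMod 2, a ≠ 0 → a = 1 := by decide
  refine ⟨univ.filter (fun e => (f e).1 ≠ 0), univ.filter (fun e => (f e).2 ≠ 0), ?_, ?_, ?_⟩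
  · intro v
    rw [← ZMod.natCast_eq_zero_iff_even]
    have h := congrArg Prod.fst (hd v)
    unfold TH499.TF.dv TH499.TF.jn at h
    rw [Prod.fst_sum] at h
    refine Eq.trans ?_ h
    rw [sum_filter]
    push_cast
    refine sum_congr rfl fun e _ => ?_
    by_cases h1 : (f e).1 = 0
    · rw [if_neg (not_not.mpr h1)]
      split_ifs <;> simp [h1]
    · rw [if_pos h1]
      split_ifs <;> simp [h01 _ h1]
  · intro v
    rw [← ZMod.natCast_eq_zero_iff_even]
    have h := congrArg Prod.snd (hd v)
    unfold TH499.TF.dv TH499.TF.jn at h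
    rw [Prod.snd_sum] at h
    refine Eq.trans ?_ h
    rw [sum_filter]
    push_cast
    refine sum_congr rfl fun e _ => ?_
    by_cases h1 : (f e).2 = 0
    · rw [if_neg (not_not.mpr h1)]
      split_ifs <;> simp [h1]
    · rw [if_pos h1]
      split_ifs <;> simp [h01 _ h1]
  · ext e
    simp only [mem_union, mem_filter, mem_univ, true_and, iff_true]
    by_contra hcon
    push Not at hcon
    exact hf e (Prod.ext hcon.1 hcon.2)

end Pool.Agent.Results.MP_e6539c_co.TreeIndependenceTwo
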